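import Pool.Agent.Lib.MP_b1de50_nt.Main

namespace Pool.Agent.Results.MP_b1de50_nt.Sun123

/-- Every natural number is `x² + y² + z² + 2w²` with `x, y, z, w ∈ ℕ` and `x + 2y + 3z` a
square. -/
theorem result : ∀ n : ℕ, ∃ x y z w : ℕ,
    n = x ^ 2 + y ^ 2 + z ^ 2 + 2 * w ^ 2 ∧ ∃ m : ℕ, x + 2 * y + 3 * z = m ^ 2 := by
  intro n
  obtain ⟨x, y, z, w, m, h1, h2⟩ := Pool.Agent.Lib.MP_b1de50_nt.adm_all n
  exact ⟨x, y, z, w, h1, m, h2⟩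

end Pool.Agent.Results.MP_b1de50_nt.Sun123
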